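import Mathlib
import Pool.Agent.T44.GF.Stm3

/-!
Project GF, stub GROW: growth of the spaces spanned by products (helper33).
-/

set_option autoImplicit false

namespace Pool.Agent.H33GF.GROW

/-- the exponents of `P` are at most `d` in each variable -/
def Dg {s : ℕ} (d : ℕ) (P : MvPolynomial (Fin s) ℚ) : Prop := ∀ b ∈ P.support, ∀ i, b i ≤ d

/-- the span of the products of monomials with exponents at most `N` and the `w k` -/
noncomputable def US {s m : ℕ} (θ : Fin s → ℂ) (w : Fin m → ℂ) (N : ℕ) : Submodule ℚ ℂ :=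
  Submodule.span ℚ (Set.range fun p : (Fin s → Fin (N + 1)) × Fin m =>
    (∏ i, θ i ^ (p.1 i : ℕ)) * w p.2)

theorem US_rank {s m : ℕ} (θ : Fin s → ℂ) (w : Fin m → ℂ) (N : ℕ) :
    Module.finrank ℚ (US θ w N) ≤ (N + 1) ^ s * m := by
  unfold US
  refine (finrank_range_le_card _).trans (le_of_eq ?_)
  simp

theorem US_fin {s m : ℕ} (θ : Fin s → ℂ) (w : Fin m → ℂ) (N : ℕ) :
    Module.Finite ℚ (US θ w N) := by
  unfold US
  exact Module.Finite.span_of_finite ℚ (Set.finite_range _)

theorem US_gen {s m : ℕ} (θ : Fin s → ℂ) (w : Fin m → ℂ) {N : ℕ} (a : Fin s → ℕ) (ha : ∀ i, a i ≤ N)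
    (k : Fin m) : (∏ i, θ i ^ a i) * w k ∈ US θ w N :=
  Submodule.subset_span ⟨(fun i => ⟨a i, Nat.lt_succ_of_le (ha i)⟩, k), rfl⟩

theorem US_mul {s m : ℕ} (θ : Fin s → ℂ) (w : Fin m → ℂ) {N d : ℕ} {P : MvPolynomial (Fin s) ℚ}
    (hP : Dg d P) {u : ℂ} (hu : u ∈ US θ w N) : MvPolynomial.aeval θ P * u ∈ US θ w (N + d) := by
  unfold US at hu
  induction hu using Submodule.span_induction with
  | mem x hx =>
    obtain ⟨⟨a, k⟩, rfl⟩ := hx
    rw [MvPolynomial.aeval_def, MvPolynomial.eval₂_eq, Finset.sum_mul]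
    refine Submodule.sum_mem _ fun b hb => ?_
    have h2 : (algebraMap ℚ ℂ (MvPolynomial.coeff b P) * ∏ i ∈ b.support, θ i ^ b i) *
        ((∏ i, θ i ^ (a i : ℕ)) * w k) =
        (MvPolynomial.coeff b P) • ((∏ i, θ i ^ (b i + a i)) * w k) := by
      rw [Algebra.smul_def]
      have h3 : ∏ i ∈ b.support, θ i ^ b i = ∏ i, θ i ^ b i := by
        refine Finset.prod_subset (Finset.subset_univ _) fun i _ hi => ?_
        rw [Finsupp.notMem_support_iff.1 hi, pow_zero]
      rw [h3]
      simp only [pow_add, Finset.prod_mul_distrib]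
      ring
    rw [h2]
    refine Submodule.smul_mem _ _ (US_gen θ w _ (fun i => ?_) k)
    have h4 := hP b hb i
    have h5 := (a i).2
    omega
  | zero =>
    rw [mul_zero]
    exact Submodule.zero_mem _
  | add x y _ _ hx hy =>
    rw [mul_add]
    exact Submodule.add_mem _ hx hy
  | smul r x _ hx =>
    rw [mul_smul_comm]
    exact Submodule.smul_mem _ _ hx

theorem Dg_total {s : ℕ} (P : MvPolynomial (Fin s) ℚ) : Dg P.totalDegree P := by
  intro b hb i
  refine le_trans ?_ (MvPolynomial.le_totalDegree hb)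
  rw [Finsupp.sum_fintype _ _ (fun _ => rfl)]
  exact Finset.single_le_sum (f := fun i => b i) (fun _ _ => Nat.zero_le _) (Finset.mem_univ i)

theorem Dg_mono {s d d' : ℕ} {P : MvPolynomial (Fin s) ℚ} (h : Dg d P) (hd : d ≤ d') : Dg d' P :=
  fun b hb i => (h b hb i).trans hd

/-- common denominators -/
theorem denom {s : ℕ} (θ : Fin s → ℂ) {κ : Type} [Fintype κ] (a : κ → ℂ)
    (ha : ∀ k, a k ∈ IntermediateField.adjoin ℚ (Set.range θ)) :
    ∃ (q : ℂ) (P : κ → MvPolynomial (Fin s) ℚ), q ≠ 0 ∧ ∀ k, q * a k = MvPolynomial.aeval θ (P k) := by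
  classical
  have h1 : ∀ k, ∃ r t : MvPolynomial (Fin s) ℚ, MvPolynomial.aeval θ t ≠ 0 ∧
      a k * MvPolynomial.aeval θ t = MvPolynomial.aeval θ r := by
    intro k
    obtain ⟨r, t, hrt⟩ := (IntermediateField.mem_adjoin_range_iff ℚ θ (a k)).1 (ha k)
    by_cases ht : MvPolynomial.aeval θ t = 0
    · refine ⟨0, 1, by simp, ?_⟩
      rw [hrt, ht]
      simp
    · refine ⟨r, t, ht, ?_⟩
      rw [hrt]
      field_simp
  choose r t ht hr using h1
  refine ⟨∏ k, MvPolynomial.aeval θ (t k), fun k => r k * ∏ j ∈ Finset.univ.erase k, t j,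
    Finset.prod_ne_zero_iff.2 fun k _ => ht k, fun k => ?_⟩
  rw [map_mul, map_prod, ← hr, ← Finset.mul_prod_erase Finset.univ _ (Finset.mem_univ k)]
  ring

theorem main : Pool.Agent.T44.GF.S_GROW := by
  classical
  intro s θ ι _ x lam hlam hx
  obtain ⟨F, hF⟩ : ∃ F : IntermediateField ℚ ℂ, F = IntermediateField.adjoin ℚ (Set.range θ) := ⟨_, rfl⟩
  letI : Fintype ι := Fintype.ofFinite ι
  rw [← hF] at hx
  obtain ⟨z, hz⟩ : ∃ z : ι → ℂ, ∀ i, z i = x i / lam := ⟨_, fun _ => rfl⟩
  simp only [← hz] at hx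
  obtain ⟨L, hL⟩ : ∃ L : IntermediateField F ℂ, L = IntermediateField.adjoin F (Set.range z) := ⟨_, rfl⟩
  haveI hfd : FiniteDimensional F L := by
    rw [hL]
    refine IntermediateField.finiteDimensional_adjoin fun y hy => ?_
    obtain ⟨i, rfl⟩ := hy
    exact (hx i).isIntegral
  have hzL : ∀ i, z i ∈ L := by
    intro i
    rw [hL]
    exact IntermediateField.subset_adjoin _ _ ⟨i, rfl⟩
  obtain ⟨m, hm⟩ : ∃ m, m = Module.finrank F L := ⟨_, rfl⟩
  obtain ⟨b⟩ : Nonempty (Module.Basis (Fin m) F L) := by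
    rw [hm]
    exact ⟨Module.finBasis F L⟩
  obtain ⟨w, hw⟩ : ∃ w : Fin m → ℂ, ∀ j, w j = (b j : ℂ) := ⟨_, fun _ => rfl⟩
  -- structure constants
  obtain ⟨A, hA⟩ : ∃ A : Option ι × Fin m × Fin m → ℂ, ∀ i j k, A (i, j, k) =
      (b.repr ((i.elim 1 fun i => (⟨z i, hzL i⟩ : L)) * b j) k : ℂ) :=
    ⟨fun p => (b.repr ((p.1.elim 1 fun i => (⟨z i, hzL i⟩ : L)) * b p.2.1) p.2.2 : ℂ),
      fun _ _ _ => rfl⟩
  obtain ⟨c, hc⟩ : ∃ c : Fin m → ℂ, ∀ k, c k = (b.repr (1 : L) k : ℂ) := ⟨_, fun _ => rfl⟩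
  have hzw : ∀ i j, z i * w j = ∑ k, A (some i, j, k) * w k := by
    intro i j
    have h1 := b.sum_repr ((⟨z i, hzL i⟩ : L) * b j)
    have h2 := congrArg (fun y : L => (y : ℂ)) h1
    simp only [hA, hw]
    rw [show z i * (b j : ℂ) = (((⟨z i, hzL i⟩ : L) * b j : L) : ℂ) from rfl, ← h2]
    push_cast
    rfl
  have h1w : (1 : ℂ) = ∑ k, c k * w k := by
    have h1 := b.sum_repr (1 : L)
    have h2 := congrArg (fun y : L => (y : ℂ)) h1
    simp only [hc, hw]
    rw [show (1 : ℂ) = ((1 : L) : ℂ) from rfl, ← h2]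
    push_cast
    rfl
  obtain ⟨q, P, hq, hP⟩ := denom θ (κ := (Option ι × Fin m × Fin m) ⊕ Fin m)
    (Sum.elim A c) (by
      rintro (⟨i, j, k⟩ | k)
      · simp only [Sum.elim_inl, hA]
        rw [← hF]
        exact Subtype.mem _
      · simp only [Sum.elim_inr, hc]
        rw [← hF]
        exact Subtype.mem _)
  obtain ⟨d, hd⟩ : ∃ d : ℕ, ∀ k, Dg d (P k) :=
    ⟨Finset.univ.sup fun k => (P k).totalDegree, fun k => Dg_mono (Dg_total _)
      (Finset.le_sup (f := fun k => (P k).totalDegree) (Finset.mem_univ k))⟩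
  -- multiplication by `q z i`
  have hstep : ∀ (N : ℕ) (i : ι) (u : ℂ), u ∈ US θ w N → (q * z i) * u ∈ US θ w (N + d) := by
    intro N i u hu
    unfold US at hu
    induction hu using Submodule.span_induction with
    | mem y hy =>
      obtain ⟨⟨a, j⟩, rfl⟩ := hy
      have h2 : q * z i * ((∏ i, θ i ^ (a i : ℕ)) * w j) =
          ∑ k, MvPolynomial.aeval θ (P (Sum.inl (some i, j, k))) * ((∏ i, θ i ^ (a i : ℕ)) * w k) := by
        calc q * z i * ((∏ i, θ i ^ (a i : ℕ)) * w j)
            = (∏ i, θ i ^ (a i : ℕ)) * (q * (z i * w j)) := by ring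
          _ = ∑ k, (q * A (some i, j, k)) * ((∏ i, θ i ^ (a i : ℕ)) * w k) := by
              rw [hzw, Finset.mul_sum, Finset.mul_sum]
              refine Finset.sum_congr rfl fun k _ => ?_
              ring
          _ = _ := by
              refine Finset.sum_congr rfl fun k _ => ?_
              have h3 := hP (Sum.inl (some i, j, k))
              simp only [Sum.elim_inl] at h3
              rw [h3]
      show q * z i * ((∏ i, θ i ^ (a i : ℕ)) * w j) ∈ _
      rw [h2]
      refine Submodule.sum_mem _ fun k _ => US_mul θ w (hd _) ?_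
      exact US_gen θ w _ (fun i => Nat.lt_succ_iff.1 (a i).2) k
    | zero =>
      rw [mul_zero]
      exact Submodule.zero_mem _
    | add x y _ _ hx hy =>
      rw [mul_add]
      exact Submodule.add_mem _ hx hy
    | smul r x _ hx =>
      rw [mul_smul_comm]
      exact Submodule.smul_mem _ _ hx
  have hzero : q ∈ US θ w d := by
    have h2 : q = ∑ k, MvPolynomial.aeval θ (P (Sum.inr k)) * ((∏ i, θ i ^ 0) * w k) := by
      calc q = q * 1 := (mul_one q).symm
        _ = ∑ k, (q * c k) * w k := by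
            rw [h1w, Finset.mul_sum]
            refine Finset.sum_congr rfl fun k _ => ?_
            ring
        _ = _ := by
            refine Finset.sum_congr rfl fun k _ => ?_
            have h3 := hP (Sum.inr k)
            simp only [Sum.elim_inr] at h3
            rw [h3]
            simp
    rw [h2]
    refine Submodule.sum_mem _ fun k _ => ?_
    have h4 := US_mul θ w (N := 0) (hd (Sum.inr k)) (US_gen θ w (N := 0) (fun _ => 0) (fun _ => le_rfl) k)
    rwa [zero_add] at h4
  -- the comparison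
  obtain ⟨g, hg⟩ : ∃ g : ℂ, g = q / lam := ⟨_, rfl⟩
  have hg0 : g ≠ 0 := by
    rw [hg]
    exact div_ne_zero hq hlam
  have hgx : ∀ i, g * x i = q * z i := by
    intro i
    rw [hg, hz]
    field_simp
  have hmain : ∀ e : ℕ, (Submodule.span ℚ (Set.range x)) ^ e ≤
      (US θ w ((e + 1) * d)).comap (LinearMap.mulLeft ℚ (g ^ e * q)) := by
    intro e
    induction e with
    | zero =>
      rw [pow_zero, Submodule.one_le, Submodule.mem_comap]
      simp only [pow_zero, one_mul, zero_add, LinearMap.mulLeft_apply, mul_one]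
      exact hzero
    | succ e ih =>
      rw [pow_succ, Submodule.mul_le]
      intro u hu v hv
      have h2 := ih hu
      rw [Submodule.mem_comap, LinearMap.mulLeft_apply] at h2
      induction hv using Submodule.span_induction with
      | mem y hy =>
        obtain ⟨i, rfl⟩ := hy
        rw [Submodule.mem_comap, LinearMap.mulLeft_apply]
        have h3 := hstep _ i _ h2
        rw [← hgx] at h3
        have h4 : g ^ (e + 1) * q * (u * x i) = g * x i * (g ^ e * q * u) := by ring
        rw [h4]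
        have h5 : (e + 1 + 1) * d = (e + 1) * d + d := by ring
        rw [h5]
        exact h3
      | zero =>
        rw [mul_zero]
        exact Submodule.zero_mem _
      | add x y _ _ hx hy =>
        rw [mul_add]
        exact Submodule.add_mem _ hx hy
      | smul r x _ hx =>
        rw [mul_smul_comm]
        exact Submodule.smul_mem _ _ hx
  refine ⟨(d + 1) ^ s * m, fun e => ?_⟩
  have hinj : Function.Injective (LinearMap.mulLeft ℚ (g ^ e * q)) := by
    intro u v huv
    simp only [LinearMap.mulLeft_apply] at huv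
    exact mul_left_cancel₀ (mul_ne_zero (pow_ne_zero _ hg0) hq) huv
  haveI := US_fin θ w ((e + 1) * d)
  have hU : Module.finrank ℚ ((Submodule.span ℚ (Set.range x)) ^ e : Submodule ℚ ℂ) ≤
      Module.finrank ℚ (US θ w ((e + 1) * d)) := by
    refine LinearMap.finrank_le_finrank_of_injective
      (f := (LinearMap.mulLeft ℚ (g ^ e * q)).restrict fun u hu => hmain e hu) ?_
    intro u v huv
    have h3 := congrArg Subtype.val huv
    exact Subtype.ext (hinj h3)
  refine hU.trans ((US_rank θ w _).trans ?_)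
  have h6 : (e + 1) * d + 1 ≤ (d + 1) * (e + 1) := by nlinarith
  calc ((e + 1) * d + 1) ^ s * m ≤ ((d + 1) * (e + 1)) ^ s * m :=
        Nat.mul_le_mul_right _ (Nat.pow_le_pow_left h6 s)
    _ = (d + 1) ^ s * m * (e + 1) ^ s := by
        rw [mul_pow]
        ring

end Pool.Agent.H33GF.GROW
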